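import Pool.Agent.Y981.QB.Stm2
import Pool.Agent.Y25.QB.Main
import Pool.Agent.H978R2.Hex.Geo

set_option autoImplicit false

/-!
Job QB-SEG: all segments at once.
-/

namespace Pool.Agent.Y936.QB

open Pool.Agent.Y981.QB H978R2.Hex Pool.Agent.Y25.QB

theorem dst_le_seg (γ : ℕ → V) (m : ℕ) (h : ∀ i < m, Adj (γ i) (γ (i + 1))) :
    ∀ b ≤ m, ∀ a ≤ b, dst (γ a) (γ b) ≤ (b : ℝ) - a := by
  intro b
  induction b with
  | zero =>
    intro _ a ha
    have : a = 0 := by omega
    subst this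
    simp [dst]
  | succ b ih =>
    intro hb a ha
    rcases Nat.eq_or_lt_of_le ha with h1 | h1
    · subst h1; simp [dst]
    · have h2 := ih (by omega) a (by omega)
      have h3 := norm_of_adj (h b (by omega))
      unfold dst at *
      have h4 := norm_sub_le_norm_sub_add_norm_sub (pos (γ a)) (pos (γ b)) (pos (γ (b + 1)))
      push_cast
      linarith

/-- The final inequality at one segment. `B0 = 16 w0 / η`, `y = log m`, `z = log T`,
`x = log lam`, `C2 z` is an upper bound for `x`. -/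
theorem final_ineq (m : ℕ) (hm : 1 ≤ m) (lam : ℕ) (D z C2 : ℝ) (hz : 1 ≤ z) (hC2 : 1 ≤ C2)
    (hlam : 3 ≤ (lam : ℝ)) (hx : Real.log lam ≤ C2 * z) (hDm : D ≤ m)
    (hdet : ∀ I : ℕ, (I : ℝ) ≤ Real.log m →
      16 / (1 / 10 ^ 12 : ℝ) * (10 ^ 13 * (lam : ℝ) ^ I) ≤ D →
      D * (1 + (1 / 10 ^ 12 : ℝ) / 2) ^ I ≤ 3 * 10 ^ 13 * m) :
    D ≤ 10 ^ 100 * (m : ℝ) ^ (1 - (1 / (8 * 10 ^ 12 * C2)) / z) := by
  obtain ⟨y, hy⟩ : ∃ y, y = Real.log m := ⟨_, rfl⟩
  have hmR : (1 : ℝ) ≤ m := by exact_mod_cast hm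
  have hm0 : (0 : ℝ) < m := by linarith
  have hy0 : 0 ≤ y := by rw [hy]; exact Real.log_nonneg hmR
  have hpow : ∀ t : ℝ, (m : ℝ) ^ t = Real.exp (y * t) := by
    intro t
    rw [Real.rpow_def_of_pos hm0, ← hy]
  have hmy : (m : ℝ) = Real.exp y := by rw [hy, Real.exp_log hm0]
  obtain ⟨c, hc⟩ : ∃ c : ℝ, c = 1 / (8 * 10 ^ 12 * C2) := ⟨_, rfl⟩
  have hc0 : 0 < c := by rw [hc]; positivity
  have hc1 : c ≤ 1 / 2 := by
    rw [hc, div_le_iff₀ (by positivity)]
    nlinarith
  rw [← hc]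
  have hz0 : 0 < z := by linarith
  have hcz0 : 0 < c / z := by positivity
  have hcz : c / z ≤ 1 / 2 := by
    rw [div_le_iff₀ hz0]
    nlinarith
  have hp1 : 1 ≤ (m : ℝ) ^ (1 - c / z) := Real.one_le_rpow hmR (by linarith)
  -- the number `b = log B0`
  obtain ⟨b, hb⟩ : ∃ b : ℝ, b = Real.log (16 * 10 ^ 25) := ⟨_, rfl⟩
  have hbexp : Real.exp b = 16 * 10 ^ 25 := by rw [hb, Real.exp_log (by norm_num)]
  have hb0 : 0 ≤ b := by rw [hb]; exact Real.log_nonneg (by norm_num)
  by_cases hcase : y / 2 < b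
  · -- short segments
    have h1 : (m : ℝ) ^ (c / z) ≤ 10 ^ 100 := by
      rw [hpow]
      have h2 : y * (c / z) ≤ b := by nlinarith
      calc Real.exp (y * (c / z)) ≤ Real.exp b := Real.exp_le_exp.2 h2
        _ ≤ 10 ^ 100 := by rw [hbexp]; norm_num
    calc D ≤ m := hDm
      _ = (m : ℝ) ^ (c / z) * (m : ℝ) ^ (1 - c / z) := by
          rw [← Real.rpow_add hm0]
          norm_num
      _ ≤ _ := mul_le_mul_of_nonneg_right h1 (by linarith)
  · push Not at hcase
    by_cases hD : D ≤ Real.exp (y / 2)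
    · have h1 : Real.exp (y / 2) ≤ (m : ℝ) ^ (1 - c / z) := by
        rw [hpow]
        apply Real.exp_le_exp.2
        nlinarith
      linarith
    · push Not at hD
      have hlam0 : (0 : ℝ) < lam := by linarith
      have hx1 : 1 ≤ Real.log lam := by
        rw [Real.le_log_iff_exp_le hlam0]
        have := Real.exp_one_lt_d9
        linarith
      obtain ⟨x, hxx⟩ : ∃ x, x = Real.log lam := ⟨_, rfl⟩
      rw [← hxx] at hx hx1
      have hx0 : 0 < x := by linarith
      obtain ⟨I, hI⟩ : ∃ I : ℕ, I = ⌊(y / 2 - b) / x⌋₊ := ⟨_, rfl⟩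
      have hq0 : 0 ≤ (y / 2 - b) / x := div_nonneg (by linarith) hx0.le
      have hI1 : (I : ℝ) ≤ (y / 2 - b) / x := by
        rw [hI]
        exact Nat.floor_le hq0
      have hI2 : (y / 2 - b) / x - 1 ≤ I := by
        rw [hI]
        have := Nat.lt_floor_add_one ((y / 2 - b) / x)
        linarith
      have hI1' : (I : ℝ) * x ≤ y / 2 - b := by
        rwa [le_div_iff₀ hx0] at hI1
      have hI0 : (0 : ℝ) ≤ I := Nat.cast_nonneg I
      have hIy : (I : ℝ) ≤ Real.log m := by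
        rw [← hy]
        have : (I : ℝ) ≤ I * x := by nlinarith
        linarith
      have hlamI : 16 / (1 / 10 ^ 12 : ℝ) * (10 ^ 13 * (lam : ℝ) ^ I) ≤ D := by
        have h1 : (lam : ℝ) ^ I = Real.exp (I * x) := by
          rw [← Real.rpow_natCast, Real.rpow_def_of_pos hlam0, mul_comm, hxx]
        have h2 : 16 / (1 / 10 ^ 12 : ℝ) * (10 ^ 13 * (lam : ℝ) ^ I) =
            Real.exp b * Real.exp (I * x) := by
          rw [hbexp, h1]
          ring
        rw [h2, ← Real.exp_add]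
        have h3 : Real.exp (b + I * x) ≤ Real.exp (y / 2) := Real.exp_le_exp.2 (by linarith)
        linarith
      have hkey := hdet I hIy hlamI
      -- lower bound for the power
      have h1 : Real.exp ((y / 2 - b) / x * (1 / 10 ^ 12 / 4) - 1 / 10 ^ 12 / 4) ≤
          (1 + (1 / 10 ^ 12 : ℝ) / 2) ^ I := by
        have h2 : Real.exp (1 / 10 ^ 12 / 4) ≤ 1 + (1 / 10 ^ 12 : ℝ) / 2 := by
          have h3 := Real.exp_bound_div_one_sub_of_interval (x := 1 / 10 ^ 12 / 4) (by norm_num)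
            (by norm_num)
          refine h3.trans ?_
          rw [div_le_iff₀ (by norm_num)]
          norm_num
        calc Real.exp ((y / 2 - b) / x * (1 / 10 ^ 12 / 4) - 1 / 10 ^ 12 / 4)
            ≤ Real.exp ((I : ℝ) * (1 / 10 ^ 12 / 4)) := by
              apply Real.exp_le_exp.2
              linarith
          _ = Real.exp (1 / 10 ^ 12 / 4) ^ I := by rw [Real.exp_nat_mul]
          _ ≤ _ := pow_le_pow_left₀ (Real.exp_pos _).le h2 _
      -- comparison of the exponents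
      have h4 : y * (c / z) - b - 1 ≤ (y / 2 - b) / x * (1 / 10 ^ 12 / 4) - 1 / 10 ^ 12 / 4 := by
        have h5 : y * (c / z) ≤ (y / 2) / x * (1 / 10 ^ 12 / 4) := by
          have h6 : y * (c / z) = (y / 2) / (C2 * z) * (1 / 10 ^ 12 / 4) := by
            rw [hc]
            field_simp
            ring
          rw [h6]
          have h7 : (y / 2) / (C2 * z) ≤ (y / 2) / x := by
            apply div_le_div_of_nonneg_left (by linarith) hx0 hx
          exact mul_le_mul_of_nonneg_right h7 (by norm_num)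
        have h8 : b / x ≤ b := by
          rw [div_le_iff₀ hx0]
          nlinarith
        have h9 : (y / 2 - b) / x = (y / 2) / x - b / x := by ring
        rw [h9]
        have h10 : 0 ≤ b / x := by positivity
        have h11 : b / x * (1 / 10 ^ 12 / 4) ≤ b := by
          have : b / x * (1 / 10 ^ 12 / 4) ≤ b * 1 :=
            mul_le_mul h8 (by norm_num) (by norm_num) hb0
          linarith
        have h12 : (1 / 10 ^ 12 / 4 : ℝ) ≤ 1 := by norm_num
        linarith [sub_mul ((y / 2) / x) (b / x) (1 / 10 ^ 12 / 4)]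
      have h5 : Real.exp (y * (c / z) - b - 1) ≤ (1 + (1 / 10 ^ 12 : ℝ) / 2) ^ I :=
        (Real.exp_le_exp.2 h4).trans h1
      have hD0 : 0 ≤ D := (Real.exp_pos (y / 2)).le.trans hD.le
      have h6 : D * Real.exp (y * (c / z) - b - 1) ≤ 3 * 10 ^ 13 * m :=
        (mul_le_mul_of_nonneg_left h5 hD0).trans hkey
      have h7 : D = D * Real.exp (y * (c / z) - b - 1) *
          (Real.exp b * Real.exp 1 * Real.exp (-(y * (c / z)))) := by
        rw [mul_assoc, ← Real.exp_add, ← Real.exp_add, ← Real.exp_add]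
        have : y * (c / z) - b - 1 + (b + 1 + -(y * (c / z))) = 0 := by ring
        rw [this, Real.exp_zero, mul_one]
      rw [h7]
      calc D * Real.exp (y * (c / z) - b - 1) *
            (Real.exp b * Real.exp 1 * Real.exp (-(y * (c / z))))
          ≤ 3 * 10 ^ 13 * m * (Real.exp b * Real.exp 1 * Real.exp (-(y * (c / z)))) :=
            mul_le_mul_of_nonneg_right h6 (by positivity)
        _ = (3 * 10 ^ 13 * Real.exp b * Real.exp 1) * (Real.exp y * Real.exp (-(y * (c / z)))) := by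
            rw [hmy]; ring
        _ = (3 * 10 ^ 13 * Real.exp b * Real.exp 1) * (m : ℝ) ^ (1 - c / z) := by
            rw [← Real.exp_add, hpow]
            congr 2
            ring
        _ ≤ _ := by
            refine mul_le_mul_of_nonneg_right ?_ (by linarith)
            rw [hbexp]
            have := Real.exp_one_lt_d9
            nlinarith

theorem seg (h1 : S_LIGHT) (h2 : S_CN) (h3 : S_CNT) (h4 : S_DET) : S_SEG := by
  classical
  obtain ⟨K2, c0, hK2, hc0, hlight⟩ := h1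
  obtain ⟨K1, hK1, hcn⟩ := h2
  obtain ⟨Λ, hΛ⟩ : ∃ Λ : ℝ, Λ = 10 ^ 13 + (13 + 8 * K1 + 4 * K2) / c0 := ⟨_, rfl⟩
  have hΛ13 : 10 ^ 13 ≤ Λ := by
    rw [hΛ]
    have : 0 ≤ (13 + 8 * K1 + 4 * K2) / c0 := by positivity
    linarith
  have hΛ0 : 0 < Λ := by linarith [show (0:ℝ) < 10 ^ 13 by norm_num]
  have hΛc : 13 + 8 * K1 + 4 * K2 ≤ c0 * Λ := by
    rw [hΛ, mul_add, mul_div_cancel₀ _ hc0.ne']
    have : 0 ≤ c0 * 10 ^ 13 := by positivity
    linarith
  obtain ⟨C2, hC2⟩ : ∃ C2 : ℝ, C2 = Real.log (2 * Λ) + 1 := ⟨_, rfl⟩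
  have hlog2Λ : 0 ≤ Real.log (2 * Λ) :=
    Real.log_nonneg (by linarith [show (1:ℝ) < 10 ^ 13 by norm_num])
  have hC21 : 1 ≤ C2 := by rw [hC2]; linarith
  refine ⟨1 / (8 * 10 ^ 12 * C2), 10 ^ 100, by positivity, ?_, by positivity,
    fun n T hn hT u F hF => ?_⟩
  · rw [div_le_iff₀ (by positivity)]
    nlinarith
  -- size of `n` and `T`
  have hnR : (16 : ℝ) ≤ n := by exact_mod_cast hn
  have hn0 : (0 : ℝ) < n := by linarith
  have hlogn : 2.7 ≤ Real.log n := by
    have h5 : Real.log 16 ≤ Real.log n := Real.log_le_log (by norm_num) hnR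
    have h6 : Real.log 16 = 4 * Real.log 2 := by
      rw [show (16 : ℝ) = 2 ^ 4 by norm_num, Real.log_pow]
      norm_num
    have := Real.log_two_gt_d9
    linarith
  have hT7 : 7 ≤ T := by nlinarith
  have hT0 : 0 < T := by linarith
  obtain ⟨z, hz⟩ : ∃ z, z = Real.log T := ⟨_, rfl⟩
  have hz1 : 1 ≤ z := by
    rw [hz, Real.le_log_iff_exp_le hT0]
    have := Real.exp_one_lt_d9
    linarith
  rw [← hz] at hF
  obtain ⟨lam, hlam⟩ : ∃ lam : ℕ, lam = ⌈Λ * T⌉₊ := ⟨_, rfl⟩
  have hlam1 : Λ * T ≤ lam := by rw [hlam]; exact Nat.le_ceil _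
  have hΛT : 10 ^ 13 ≤ Λ * T := by nlinarith
  have hlam2 : (lam : ℝ) ≤ 2 * Λ * T := by
    have := Nat.ceil_lt_add_one (a := Λ * T) (by positivity)
    rw [← hlam] at this
    linarith [show (1:ℝ) < 10 ^ 13 by norm_num]
  have hlam13R : (10 : ℝ) ^ 13 ≤ lam := hΛT.trans hlam1
  have hlam13 : 10 ^ 13 ≤ lam := by exact_mod_cast hlam13R
  have hloglam : Real.log lam ≤ C2 * z := by
    have h5 := Real.log_le_log (by linarith [show (0:ℝ) < 10 ^ 13 by norm_num]) hlam2
    rw [Real.log_mul (by positivity) hT0.ne', ← hz] at h5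
    rw [hC2]
    nlinarith
  -- some scale has a light piece
  have hex : ∀ l ∈ F, ∃ q < n, DL (1 / 10 ^ 12) (10 ^ 13 * lam ^ q) lam n (gt l) 1 := by
    intro l hl
    obtain ⟨hsw, i, j, hij, hj, hd⟩ := hF l hl
    by_contra hcon
    push Not at hcon
    refine absurd hd (not_lt.2 ?_)
    have hadj := adj_gt hsw
    refine final_ineq (j - i) (by omega) lam _ z C2 hz1 hC21 ?_ hloglam ?_ ?_
    · linarith [show (3:ℝ) < 10 ^ 13 by norm_num]
    · have := dst_le_seg (gt l) n hadj j hj i hij.le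
      rw [Nat.cast_sub hij.le]
      exact this
    · intro I hI hsc
      have hIn : I ≤ n := by
        have h5 : Real.log ((j - i : ℕ) : ℝ) ≤ ((j - i : ℕ) : ℝ) := by
          have h6 : (0 : ℝ) < ((j - i : ℕ) : ℝ) := by
            have : 0 < j - i := by omega
            exact_mod_cast this
          have := Real.log_le_sub_one_of_pos h6
          linarith
        have h6 : (I : ℝ) ≤ ((j - i : ℕ) : ℝ) := hI.trans h5
        have h7 : I ≤ j - i := by exact_mod_cast h6
        omega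
      have hdet := h4 (1 / 10 ^ 12) (10 ^ 13) lam I 1 (j - i) 0 (j - i) (fun q => gt l (i + q))
        (by norm_num) (by norm_num) (by norm_num) (by omega) le_rfl
        (fun q hq => hadj (i + q) (by omega)) (by omega) le_rfl
        (fun q hq hDL => hcon q (by omega) ?_) ?_
      · simp only [Nat.add_zero] at hdet
        rw [Nat.add_sub_cancel' hij.le] at hdet
        rw [show (((10 ^ 13 : ℕ)) : ℝ) = 10 ^ 13 by norm_num] at hdet
        exact hdet
      · obtain ⟨a, b, hab, -⟩ := hDL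
        obtain ⟨h5, h6, h7⟩ := hab 0 Nat.one_pos
        refine ⟨fun _ => i + a 0, fun _ => i + b 0, fun k hk => ?_, fun k hk => by omega⟩
        refine ⟨by dsimp only; omega, by dsimp only; omega, ?_⟩
        have h8 : i + b 0 - (i + a 0) = b 0 - a 0 := by omega
        simp only [h8]
        have h9 : (fun q => gt l (i + a 0 + q)) = fun q => gt l (i + (a 0 + q)) := by
          funext q
          rw [Nat.add_assoc]
        rw [h9]
        exact h7
      · simp only [Nat.add_zero]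
        rw [Nat.add_sub_cancel' hij.le]
        rw [show (((10 ^ 13 : ℕ)) : ℝ) = 10 ^ 13 by norm_num]
        simpa using hsc
  -- counting
  obtain ⟨L, hL⟩ : ∃ L, L = Real.log ((n : ℝ) + 2) := ⟨_, rfl⟩
  have hL1 : 1 ≤ L := by
    have : Real.log n ≤ L := by
      rw [hL]
      exact Real.log_le_log hn0 (by linarith)
    linarith
  have hL2 : L ^ 2 ≤ 4 * T := by
    have h5 : (n : ℝ) + 2 ≤ n ^ 2 := by nlinarith
    have h6 := Real.log_le_log (by linarith) h5
    rw [Real.log_pow] at h6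
    rw [← hL] at h6
    push_cast at h6
    have h7 : L ^ 2 ≤ (2 * Real.log n) ^ 2 := pow_le_pow_left₀ (by linarith) h6 2
    nlinarith
  have hLT : L ≤ 4 * T := by nlinarith
  have hlogm : ∀ m : ℕ, m ≤ n → Real.log ((m : ℝ) + 2) ^ 2 ≤ L ^ 2 := by
    intro m hm
    have hm' : (m : ℝ) ≤ n := by exact_mod_cast hm
    have hm0 : (0 : ℝ) ≤ m := Nat.cast_nonneg m
    have h5 : 0 ≤ Real.log ((m : ℝ) + 2) := Real.log_nonneg (by linarith)
    have h6 : Real.log ((m : ℝ) + 2) ≤ L := by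
      rw [hL]
      exact Real.log_le_log (by linarith) (by linarith)
    exact pow_le_pow_left₀ h5 h6 2
  have hcnt : ∀ q < n, ((F.filter fun l => DL (1 / 10 ^ 12) (10 ^ 13 * lam ^ q) lam n (gt l) 1).card
      : ℝ) ≤ mu0 ^ n * ((n : ℝ) + 1) ^ (2 * 1) *
        Real.exp (((1 : ℕ) + 1) * (K1 * L ^ 2) + (1 : ℕ) * (K2 * L ^ 2 - c0 * lam)) := by
    intro q _
    refine h3 (1 / 10 ^ 12) (K2 * L ^ 2 - c0 * lam) (K1 * L ^ 2) (10 ^ 13 * lam ^ q) lam n 1
      (by positivity) ?_ ?_ u _ ?_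
    · intro w m G hm hG
      refine (hcn w m G hG).trans ?_
      refine mul_le_mul_of_nonneg_left (Real.exp_le_exp.2 ?_) (pow_pos mu0_pos m).le
      exact mul_le_mul_of_nonneg_left (hlogm m hm) hK1
    · intro w m G hm hG
      have hlp : 1 ≤ lam ^ q := Nat.one_le_pow _ _ (by omega)
      refine (hlight (10 ^ 13 * lam ^ q) lam m ?_ ?_ hlam13 w G hG).trans ?_
      · exact Nat.le_mul_of_pos_right _ (by omega)
      · exact Even.mul_right (by decide) _
      · refine mul_le_mul_of_nonneg_left (Real.exp_le_exp.2 ?_) (pow_pos mu0_pos m).le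
        have := mul_le_mul_of_nonneg_left (hlogm m hm) hK2
        linarith
    · intro l hl
      obtain ⟨h5, h6⟩ := Finset.mem_filter.1 hl
      exact ⟨(hF l h5).1, h6⟩
  have hunion : (F.card : ℝ) ≤ ∑ q ∈ Finset.range n,
      ((F.filter fun l => DL (1 / 10 ^ 12) (10 ^ 13 * lam ^ q) lam n (gt l) 1).card : ℝ) := by
    have h5 : F ⊆ (Finset.range n).biUnion
        fun q => F.filter fun l => DL (1 / 10 ^ 12) (10 ^ 13 * lam ^ q) lam n (gt l) 1 := by
      intro l hl
      obtain ⟨i, hi, hi'⟩ := hex l hl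
      rw [Finset.mem_biUnion]
      exact ⟨i, Finset.mem_range.2 hi, Finset.mem_filter.2 ⟨hl, hi'⟩⟩
    have h6 := (Finset.card_le_card h5).trans Finset.card_biUnion_le
    exact_mod_cast h6
  have hsum : (F.card : ℝ) ≤ n * (mu0 ^ n * ((n : ℝ) + 1) ^ (2 * 1) *
        Real.exp (((1 : ℕ) + 1) * (K1 * L ^ 2) + (1 : ℕ) * (K2 * L ^ 2 - c0 * lam))) := by
    refine hunion.trans ?_
    refine (Finset.sum_le_sum fun i hi => hcnt i (Finset.mem_range.1 hi)).trans (le_of_eq ?_)
    rw [Finset.sum_const, Finset.card_range, nsmul_eq_mul]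
  have hn2 : (n : ℝ) + 2 = Real.exp L := by rw [hL, Real.exp_log (by linarith)]
  have hne : (n : ℝ) ≤ Real.exp L := by rw [← hn2]; linarith
  have hpe : ((n : ℝ) + 1) ^ (2 * 1) ≤ Real.exp (2 * L) := by
    calc ((n : ℝ) + 1) ^ (2 * 1) ≤ ((n : ℝ) + 2) ^ (2 * 1) :=
          pow_le_pow_left₀ (by linarith) (by linarith) _
      _ = Real.exp (2 * L) := by
          rw [hn2, ← Real.exp_nat_mul]
          push_cast
          ring_nf
  have hmu : 0 < mu0 ^ n := pow_pos mu0_pos n
  calc (F.card : ℝ) ≤ _ := hsum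
    _ ≤ Real.exp L * (mu0 ^ n * Real.exp (2 * L) *
        Real.exp (((1 : ℕ) + 1) * (K1 * L ^ 2) + (1 : ℕ) * (K2 * L ^ 2 - c0 * lam))) := by gcongr
    _ = mu0 ^ n * Real.exp (L + 2 * L +
        (((1 : ℕ) + 1) * (K1 * L ^ 2) + (1 : ℕ) * (K2 * L ^ 2 - c0 * lam))) := by
        rw [Real.exp_add (L + 2 * L), Real.exp_add L]
        ring
    _ ≤ mu0 ^ n * Real.exp (-T) := by
        refine mul_le_mul_of_nonneg_left (Real.exp_le_exp.2 ?_) hmu.le
        have e1 : c0 * (Λ * T) ≤ c0 * lam := mul_le_mul_of_nonneg_left hlam1 hc0.le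
        have e2 : (13 + 8 * K1 + 4 * K2) * T ≤ c0 * Λ * T :=
          mul_le_mul_of_nonneg_right hΛc hT0.le
        have e3 : K1 * L ^ 2 ≤ K1 * (4 * T) := mul_le_mul_of_nonneg_left hL2 hK1
        have e4 : K2 * L ^ 2 ≤ K2 * (4 * T) := mul_le_mul_of_nonneg_left hL2 hK2
        push_cast
        nlinarith

end Pool.Agent.Y936.QB
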